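import Pool.Agent.Y120.K.Defs
import Pool.Agent.Y118.UL.Liv

/-!
# The values for distinct shifts satisfy no relation of bounded degree
-/

set_option autoImplicit false
set_option maxHeartbeats 400000

open PowerSeries Pool.Agent.Y113 Pool.Agent.Y120.K

namespace Pool.Agent.Y929.K

/-- the exponents of a monomial in the first three functions -/
def mkE {δ : ℕ} (a : Fin 3 → ℕ) (h : ∑ i, a i ≤ δ) : Pool.Agent.Y113.Ex δ :=
  ⟨![⟨a 0, by rw [Fin.sum_univ_three] at h; omega⟩, ⟨a 1, by rw [Fin.sum_univ_three] at h; omega⟩,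
    ⟨a 2, by rw [Fin.sum_univ_three] at h; omega⟩, 0], by
    rw [Fin.sum_univ_three] at h
    rw [Fin.sum_univ_four]
    exact h, Or.inr rfl⟩

lemma mkE_inj {δ : ℕ} {a b : Fin 3 → ℕ} (ha : ∑ i, a i ≤ δ) (hb : ∑ i, b i ≤ δ) (h : mkE a ha = mkE b hb) : a = b := by
  have h1 := congrArg Subtype.val h
  have h2 := congrFun h1 0
  have h3 := congrFun h1 1
  have h4 := congrFun h1 2
  have h5 : a 0 = b 0 := congrArg Fin.val h2
  have h6 : a 1 = b 1 := congrArg Fin.val h3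
  have h7 : a 2 = b 2 := congrArg Fin.val h4
  funext i
  fin_cases i
  · exact h5
  · exact h6
  · exact h7

lemma monJ_mkE {δ : ℕ} (s : Bool) (g : ℕ) (a : Fin 3 → ℕ) (h : ∑ i, a i ≤ δ) :
    monJ s g (mkE a h) = ∏ i : Fin 3, fJ s g i.castSucc ^ a i := by
  unfold monJ
  rw [Fin.prod_univ_four, Fin.prod_univ_three]
  have h3 : fJ s g 3 ^ (((mkE a h).1 3 : Fin (δ + 1)) : ℕ) = 1 := pow_zero _
  rw [h3, mul_one]
  rfl

/-- sizes of the first three functions -/
lemma size_fJ {s : Bool} (hm : T_MONJ s) : ∃ E : ℕ, ∀ (g : ℕ) (i : Fin 3) (m : ℕ),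
    |((coeff m (fJ s g i.castSucc) : ℚ) : ℝ)| ≤ (((g : ℝ) + 2) ^ E) ^ (m + 1) := by
  obtain ⟨q, E, c, Tg, sys, ne⟩ := hm 1
  refine ⟨E, fun g i m => ?_⟩
  have h0 : ∑ j : Fin 3, (if j = i then 1 else 0 : ℕ) ≤ 1 := by simp
  have h1 := (sys g).size (mkE (fun j => if j = i then 1 else 0) h0) m
  have h2 : monJ s g (mkE (fun j => if j = i then 1 else 0) h0) = fJ s g i.castSucc := by
    rw [monJ_mkE, Finset.prod_eq_single i]
    · rw [if_pos rfl, pow_one]
    · intro j _ hj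
      rw [if_neg hj, pow_zero]
    · intro h
      exact absurd (Finset.mem_univ _) h
  rw [← h2]
  exact h1

theorem t_nrj (s : Bool) (hm : T_MONJ s) (hl : T_LIJ s) : T_NRJ s := by
  classical
  intro N δ
  obtain ⟨E₁, hE₁⟩ := size_fJ hm
  obtain ⟨q, E₀, c, Tg, sys, ne⟩ := hm δ
  have h00 : ∑ i : Fin 3, (fun _ : Fin 3 => 0) i ≤ δ := by simp
  obtain ⟨E, hE⟩ := Pool.Agent.Y118.UL.liR (F := fun g (e : Pool.Agent.Y113.Ex δ) => monJ s g e)
    (b₀ := mkE (fun _ => 0) h00) (fun g => by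
      show monJ s g (mkE (fun _ => 0) h00) = 1
      rw [monJ_mkE]
      simp) sys ne N
  refine ⟨E + (E₁ + 2), ?_⟩
  intro H t ht g hg hgH P hP hP0
  have hLI := hE H t ((Nat.pow_le_pow_right (by omega) (by omega)).trans ht) g (fun l => (hgH l).2)
    (hl N δ g hg fun l => (hgH l).1)
  have ht0' : 0 < t := lt_of_lt_of_le (by positivity) ht
  have ht0 : (0 : ℝ) < t := by exact_mod_cast ht0'
  have hcv : ∀ (l : Fin N) (i : Fin 3), Cv (t : ℝ) (fJ s (g l) i.castSucc) := by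
    intro l i
    set B : ℝ := ((g l : ℝ) + 2) ^ E₁ with hB
    have hB0 : 0 ≤ B := by positivity
    refine Cv.of_bound (A := B) (B := B) ht0 hB0 ?_ fun m => ?_
    · have hH0 : (0 : ℝ) ≤ H := by positivity
      have h2 : B ≤ ((H : ℝ) + 2) ^ E₁ := by
        refine pow_le_pow_left₀ (by positivity) ?_ _
        have : ((g l : ℕ) : ℝ) ≤ H := by exact_mod_cast (hgH l).2
        linarith
      have h3 : ((H : ℝ) + 2) ^ E₁ < ((H : ℝ) + 2) ^ (E₁ + 2) := pow_lt_pow_right₀ (by linarith) (by omega)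
      have h4 : ((H : ℝ) + 2) ^ (E₁ + 2) ≤ (t : ℝ) := by
        have h5 : (H + 2) ^ (E₁ + 2) ≤ t := (Nat.pow_le_pow_right (by omega) (by omega)).trans ht
        exact_mod_cast h5
      linarith
    · exact (hE₁ (g l) i m).trans (le_of_eq (pow_succ' _ _))
  -- the exponents
  have hdeg : ∀ m ∈ P.support, ∑ p, m p ≤ δ := by
    intro m hm'
    have h1 := (MvPolynomial.le_totalDegree hm').trans hP
    rwa [Finsupp.sum_fintype _ _ (fun _ => rfl)] at h1
  have hdl : ∀ m ∈ P.support, ∀ l : Fin N, ∑ i : Fin 3, m (l, i) ≤ δ := by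
    intro m hm' l
    refine le_trans ?_ (hdeg m hm')
    rw [Fintype.sum_prod_type]
    exact Finset.single_le_sum (f := fun l => ∑ i : Fin 3, m (l, i)) (fun _ _ => Nat.zero_le _) (Finset.mem_univ l)
  let bs : P.support → Fin N → Pool.Agent.Y113.Ex δ := fun m l =>
    mkE (fun i => (m : (Fin N × Fin 3) →₀ ℕ) (l, i)) (hdl m m.2 l)
  have hbs : Function.Injective bs := by
    intro m m' h
    apply Subtype.ext
    ext ⟨l, i⟩
    exact congrFun (mkE_inj _ _ (congrFun h l)) i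
  have hLI2 := hLI.comp bs hbs
  -- the values
  have hval : ∀ m : P.support, ∏ p : Fin N × Fin 3, (vJ s t (g p.1) p.2) ^ (m : (Fin N × Fin 3) →₀ ℕ) p =
      ((∏ l, ev (t : ℝ) (monJ s (g l) (bs m l)) : ℝ) : ℂ) := by
    intro m
    rw [Fintype.prod_prod_type, Complex.ofReal_prod]
    refine Finset.prod_congr rfl fun l _ => ?_
    show _ = ((ev (t : ℝ) (monJ s (g l) (mkE (fun i => (m : (Fin N × Fin 3) →₀ ℕ) (l, i)) (hdl m m.2 l))) : ℝ) : ℂ)
    rw [monJ_mkE, Cv.ev_prod ht0 Finset.univ (fun i : Fin 3 => fJ s (g l) i.castSucc ^ (m : (Fin N × Fin 3) →₀ ℕ) (l, i))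
      (fun i _ => (hcv l i).pow ht0 _), Complex.ofReal_prod]
    refine Finset.prod_congr rfl fun i _ => ?_
    rw [Cv.ev_pow ht0 (hcv l i), Complex.ofReal_pow]
    rfl
  have hrel : ∑ m : P.support, P.coeff m • ∏ l, ev (t : ℝ) (monJ s (g l) (bs m l)) = 0 := by
    have h1 : ((∑ m : P.support, P.coeff m • ∏ l, ev (t : ℝ) (monJ s (g l) (bs m l)) : ℝ) : ℂ) = 0 := by
      rw [← hP0, MvPolynomial.aeval_def, MvPolynomial.eval₂_eq', Complex.ofReal_sum, ← Finset.sum_coe_sort P.support]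
      refine Finset.sum_congr rfl fun m _ => ?_
      rw [hval m, Rat.smul_def, Complex.ofReal_mul, Complex.ofReal_ratCast, eq_ratCast]
    exact_mod_cast h1
  have h2 := (Fintype.linearIndependent_iff.1 hLI2) (fun m => P.coeff m) hrel
  by_contra hP1
  obtain ⟨m, hm'⟩ := MvPolynomial.ne_zero_iff.1 hP1
  exact hm' (h2 ⟨m, MvPolynomial.mem_support_iff.2 hm'⟩)

end Pool.Agent.Y929.K
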